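import Mathlib

set_option autoImplicit false

/-!
# Faces in the support of no affine stress

For every odd `i ≥ 3` and `d = 2 i` we exhibit a simplicial `d`-polytope, all of whose missing faces
have dimension two, with an `(i-1)`-face that lies in the support of no affine `i`-stress: the free
sum of `i` triangles.
-/

namespace Pool.Agent.Results.MP_1d95a5_co.OddMiddle

open MvPolynomial

/-- `F` is the vertex set of a proper face (possibly empty) of the polytope `conv {p v : v ∈ ι}`, that
is, a face of the boundary complex: the points `p v`, `v ∈ F`, are exactly those on some supporting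
hyperplane `f · x = c`, and not all of the points lie on it. -/
def IsProperFace {ι : Type} {d : ℕ} (p : ι → Fin d → ℝ) (F : Finset ι) : Prop :=
  ∃ (f : Fin d → ℝ) (c : ℝ), (∀ v, f ⬝ᵥ p v ≤ c) ∧ (∀ v, v ∈ F ↔ f ⬝ᵥ p v = c) ∧ ∃ v, v ∉ F

/-- The points `p v`, `v ∈ ι`, are the vertices of a simplicial `d`-polytope in `ℝ^d`: they affinely
span `ℝ^d`, each of them is a vertex of the convex hull, and every proper face is a simplex. -/
structure IsSimplicialPolytope {ι : Type} {d : ℕ} (p : ι → Fin d → ℝ) : Prop where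
  full_dim : affineSpan ℝ (Set.range p) = ⊤
  vertices : ∀ v, IsProperFace p {v}
  simplicial : ∀ F : Finset ι, IsProperFace p F → AffineIndependent ℝ (fun v : F => p v)

/-- `F` is a missing face of the boundary complex: it is not a face, but every proper subset is. -/
def IsMissingFace {ι : Type} {d : ℕ} (p : ι → Fin d → ℝ) (F : Finset ι) : Prop :=
  ¬ IsProperFace p F ∧ ∀ G, G ⊂ F → IsProperFace p G

/-- Affine `i`-stresses: homogeneous polynomials of degree `i` in the variables `x_v`, all of whose
monomials are supported on faces of the boundary complex, with `∑_v ∂λ/∂x_v = 0` and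
`∑_v v_k ∂λ/∂x_v = 0` for every coordinate `k`. Monomials need not be squarefree. -/
structure IsAffineStress {ι : Type} [Fintype ι] {d : ℕ} (p : ι → Fin d → ℝ) (i : ℕ)
    (lam : MvPolynomial ι ℝ) : Prop where
  homogeneous : lam.IsHomogeneous i
  supported : ∀ m ∈ lam.support, IsProperFace p m.support
  sum_zero : ∑ v, pderiv v lam = 0
  coord_zero : ∀ k, ∑ v, C (p v k) * pderiv v lam = 0

/-! ### The pairing of polynomials -/

section Pairing

variable {ι : Type} [Fintype ι]

/-- `⟨x^b, λ⟩ = b! · coefficient of x^b in λ`. -/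
noncomputable def pairing (lam : MvPolynomial ι ℝ) : MvPolynomial ι ℝ →ₗ[ℝ] ℝ :=
  (basisMonomials ι ℝ).constr ℝ (fun b => (∏ v, ((b v).factorial : ℝ)) * coeff b lam)

theorem pairing_monomial (lam : MvPolynomial ι ℝ) (b : ι →₀ ℕ) (a : ℝ) :
    pairing lam (monomial b a) = a * ((∏ v, ((b v).factorial : ℝ)) * coeff b lam) := by
  have h : monomial b a = a • (basisMonomials ι ℝ b : MvPolynomial ι ℝ) := by
    rw [coe_basisMonomials, smul_monomial, smul_eq_mul, mul_one]
  rw [h, map_smul, pairing, Module.Basis.constr_basis, smul_eq_mul]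

theorem pairing_X_mul (lam g : MvPolynomial ι ℝ) (w : ι) :
    pairing lam (X w * g) = pairing (pderiv w lam) g := by
  classical
  induction g using MvPolynomial.induction_on' with
  | monomial b a =>
    rw [X, monomial_mul, one_mul, pairing_monomial, pairing_monomial, coeff_pderiv]
    have h1 : (∏ v, (((Finsupp.single w 1 + b : ι →₀ ℕ) v).factorial : ℝ)) =
        (b w + 1) * ∏ v, ((b v).factorial : ℝ) := by
      rw [← Finset.mul_prod_erase Finset.univ _ (Finset.mem_univ w),
        ← Finset.mul_prod_erase Finset.univ (fun v => ((b v).factorial : ℝ)) (Finset.mem_univ w),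
        ← mul_assoc]
      congr 1
      · have : (Finsupp.single w 1 + b : ι →₀ ℕ) w = b w + 1 := by
          rw [Finsupp.add_apply, Finsupp.single_eq_same, add_comm]
        rw [this, Nat.factorial_succ]
        push_cast
        ring
      · apply Finset.prod_congr rfl
        intro v hv
        have hne : v ≠ w := Finset.ne_of_mem_erase hv
        have : (Finsupp.single w 1 + b : ι →₀ ℕ) v = b v := by
          rw [Finsupp.add_apply, Finsupp.single_eq_of_ne hne, zero_add]
        rw [this]
    rw [h1, add_comm (Finsupp.single w 1) b]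
    ring
  | add g₁ g₂ h₁ h₂ => rw [mul_add, map_add, map_add, h₁, h₂]

theorem pairing_linear_mul (lam g : MvPolynomial ι ℝ) (a : ι → ℝ)
    (h : ∑ v, C (a v) * pderiv v lam = 0) : pairing lam ((∑ v, C (a v) * X v) * g) = 0 := by
  have hlin : ∀ (s : Finset ι) (q : ι → MvPolynomial ι ℝ),
      pairing (∑ v ∈ s, C (a v) * q v) g = ∑ v ∈ s, a v * pairing (q v) g := by
    intro s q
    induction g using MvPolynomial.induction_on' with
    | monomial b c =>
      simp only [pairing_monomial, coeff_sum, coeff_C_mul]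
      rw [Finset.mul_sum, Finset.mul_sum]
      apply Finset.sum_congr rfl
      intro v _
      ring
    | add g₁ g₂ h₁ h₂ =>
      rw [map_add, h₁, h₂, ← Finset.sum_add_distrib]
      apply Finset.sum_congr rfl
      intro v _
      rw [map_add]
      ring
  rw [Finset.sum_mul, map_sum]
  have h1 : ∀ v, pairing lam (C (a v) * X v * g) = a v * pairing (pderiv v lam) g := by
    intro v
    rw [mul_assoc, C_mul', map_smul, pairing_X_mul, smul_eq_mul]
  simp only [h1]
  rw [← hlin Finset.univ (fun v => pderiv v lam), h]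
  induction g using MvPolynomial.induction_on' with
  | monomial b c => simp [pairing_monomial]
  | add g₁ g₂ h₁ h₂ =>
    have e : ∀ q : MvPolynomial ι ℝ, pairing (0 : MvPolynomial ι ℝ) q = 0 := by
      intro q
      induction q using MvPolynomial.induction_on' with
      | monomial b c => simp [pairing_monomial]
      | add q₁ q₂ e₁ e₂ => rw [map_add, e₁, e₂, add_zero]
    exact e _

theorem pairing_monomial_mul (lam g : MvPolynomial ι ℝ) (m : ι →₀ ℕ)
    (h : ∀ b : ι →₀ ℕ, m ≤ b → coeff b lam = 0) : pairing lam (monomial m 1 * g) = 0 := by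
  induction g using MvPolynomial.induction_on' with
  | monomial b c =>
    rw [monomial_mul, pairing_monomial, h (m + b) (by simp)]
    simp
  | add g₁ g₂ h₁ h₂ => rw [mul_add, map_add, h₁, h₂, add_zero]

end Pairing

/-! ### Newton identities -/

theorem newton_odd {Q : Type} [CommRing Q] [Algebra ℝ Q] (n : ℕ) (D : Fin n → Q)
    (h1 : ∑ j, D j = 0) (h3 : ∀ j, D j ^ 3 = 0) :
    ∀ k : ℕ, Odd k → aeval D (esymm (Fin n) ℝ k) = 0 := by
  intro k
  induction k using Nat.strong_induction_on with
  | _ k ih =>
    intro hk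
    have hN := congrArg (aeval D) (mul_esymm_eq_sum (σ := Fin n) (R := ℝ) k)
    rw [map_mul, map_mul, map_sum, map_natCast] at hN
    have hz : ∀ a ∈ (Finset.HasAntidiagonal.antidiagonal k).filter (fun a => a.1 < k),
        aeval D ((-1) ^ a.1 * esymm (Fin n) ℝ a.1 * psum (Fin n) ℝ a.2) = 0 := by
      rintro ⟨a, b⟩ hab
      rw [Finset.mem_filter, Finset.HasAntidiagonal.mem_antidiagonal] at hab
      simp only at hab
      obtain ⟨hab, hlt⟩ := hab
      have hp : ∀ b : ℕ, aeval D (psum (Fin n) ℝ b) = ∑ j, D j ^ b := by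
        intro b
        simp [psum]
      rw [map_mul, map_mul, hp]
      rcases Nat.lt_or_ge b 3 with hb | hb
      · interval_cases b
        · omega
        · simp only [pow_one, h1, mul_zero]
        · have hodd : Odd a := by
            rcases hk with ⟨r, hr⟩
            exact ⟨r - 1, by omega⟩
          rw [ih a hlt hodd, mul_zero, zero_mul]
      · have : ∑ j, D j ^ b = 0 := by
          apply Finset.sum_eq_zero
          intro j _
          rw [← Nat.sub_add_cancel hb, pow_add, h3, mul_zero]
        rw [this, mul_zero]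
    rw [Finset.sum_eq_zero hz, mul_zero] at hN
    have hk0 : (k : ℝ) ≠ 0 := by
      rcases hk with ⟨r, hr⟩
      have : k ≠ 0 := by omega
      exact_mod_cast this
    have h4 : (k : ℝ) • aeval D (esymm (Fin n) ℝ k) = 0 := by
      rw [Algebra.smul_def, map_natCast]
      exact hN
    exact (smul_eq_zero_iff_right hk0).mp h4

/-! ### The free sum of `n` triangles -/

/-- The vertices `(1,0)`, `(0,1)`, `(-1,-1)` of a triangle. -/
def tri : Fin 3 → Fin 2 → ℝ := ![![1, 0], ![0, 1], ![-1, -1]]

/-- Vertices of the free sum of `n` triangles in `ℝ^{2n}`; vertex `(j,k)` is the vertex `k` of the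
`j`-th triangle. -/
def pt (n : ℕ) (v : Fin n × Fin 3) (c : Fin (2 * n)) : ℝ :=
  if (finProdFinEquiv.symm c).2 = v.1 then tri v.2 (finProdFinEquiv.symm c).1 else 0

theorem pt_apply (n : ℕ) (v : Fin n × Fin 3) (a : Fin 2) (j : Fin n) :
    pt n v (finProdFinEquiv (a, j)) = if j = v.1 then tri v.2 a else 0 := by
  simp [pt]

theorem dot_pt (n : ℕ) (f : Fin (2 * n) → ℝ) (v : Fin n × Fin 3) :
    f ⬝ᵥ pt n v = f (finProdFinEquiv (0, v.1)) * tri v.2 0 + f (finProdFinEquiv (1, v.1)) * tri v.2 1 := by
  unfold dotProduct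
  rw [← finProdFinEquiv.sum_comp, Fintype.sum_prod_type]
  simp only [pt_apply, mul_ite, mul_zero, Finset.sum_ite_eq', Finset.mem_univ, if_true]
  rw [Fin.sum_univ_two]

/-- Faces of the free sum are the sets that contain no triangle. -/
theorem face_iff (n : ℕ) (hn : 0 < n) (F : Finset (Fin n × Fin 3)) :
    IsProperFace (pt n) F ↔ ∀ j, ∃ k, (j, k) ∉ F := by
  constructor
  · rintro ⟨f, c, hle, hF, v₀, hv₀⟩ j
    by_contra hcon
    push Not at hcon
    have e : ∀ j : Fin n, f ⬝ᵥ pt n (j, 0) + f ⬝ᵥ pt n (j, 1) + f ⬝ᵥ pt n (j, 2) = 0 := by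
      intro j
      rw [dot_pt, dot_pt, dot_pt]
      simp [tri]
      ring
    have h0 := (hF _).mp (hcon 0)
    have h1 := (hF _).mp (hcon 1)
    have h2 := (hF _).mp (hcon 2)
    have hc : c = 0 := by
      have := e j
      rw [h0, h1, h2] at this
      linarith
    subst hc
    apply hv₀
    rw [hF]
    obtain ⟨j', k'⟩ := v₀
    have l0 := hle (j', 0)
    have l1 := hle (j', 1)
    have l2 := hle (j', 2)
    have e' := e j'
    fin_cases k' <;> simp only [Fin.zero_eta, Fin.mk_one, Fin.reduceFinMk] <;> linarith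
  · intro h
    -- values of the functional on the vertices of the `j`-th triangle
    have hval : ∀ j : Fin n, ∃ a b : ℝ, ∀ k : Fin 3,
        (a * tri k 0 + b * tri k 1 ≤ 1) ∧ ((j, k) ∈ F ↔ a * tri k 0 + b * tri k 1 = 1) := by
      intro j
      by_cases h0 : (j, (0 : Fin 3)) ∈ F <;> by_cases h1 : (j, (1 : Fin 3)) ∈ F <;>
        by_cases h2 : (j, (2 : Fin 3)) ∈ F
      · exfalso
        obtain ⟨k, hk⟩ := h j
        fin_cases k
        · exact hk h0
        · exact hk h1
        · exact hk h2
      · refine ⟨1, 1, fun k => ?_⟩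
        fin_cases k <;> simp [tri, h0, h1, h2] <;> norm_num
      · refine ⟨1, -2, fun k => ?_⟩
        fin_cases k <;> simp [tri, h0, h1, h2] <;> norm_num
      · refine ⟨1, -1/2, fun k => ?_⟩
        fin_cases k <;> simp [tri, h0, h1, h2] <;> norm_num
      · refine ⟨-2, 1, fun k => ?_⟩
        fin_cases k <;> simp [tri, h0, h1, h2] <;> norm_num
      · refine ⟨-1/2, 1, fun k => ?_⟩
        fin_cases k <;> simp [tri, h0, h1, h2] <;> norm_num
      · refine ⟨-1/2, -1/2, fun k => ?_⟩
        fin_cases k <;> simp [tri, h0, h1, h2] <;> norm_num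
      · refine ⟨0, 0, fun k => ?_⟩
        fin_cases k <;> simp [tri, h0, h1, h2]
    choose a b hab using hval
    refine ⟨fun c => if (finProdFinEquiv.symm c).1 = 0 then a (finProdFinEquiv.symm c).2
      else b (finProdFinEquiv.symm c).2, 1, ?_, ?_, ?_⟩
    · rintro ⟨j, k⟩
      rw [dot_pt]
      simpa using (hab j k).1
    · rintro ⟨j, k⟩
      rw [dot_pt]
      simpa using (hab j k).2
    · obtain ⟨k, hk⟩ := h ⟨0, hn⟩
      exact ⟨_, hk⟩

theorem sum_smul_pt (n : ℕ) (w : Fin n × Fin 3 → ℝ) (a : Fin 2) (j : Fin n) :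
    (∑ v, w v • pt n v) (finProdFinEquiv (a, j)) =
      w (j, 0) * tri 0 a + w (j, 1) * tri 1 a + w (j, 2) * tri 2 a := by
  rw [Finset.sum_apply, Fintype.sum_prod_type]
  simp only [Pi.smul_apply, pt_apply, smul_eq_mul, mul_ite, mul_zero]
  rw [Finset.sum_comm]
  simp only [Finset.sum_ite_eq, Finset.mem_univ, if_true]
  rw [Fin.sum_univ_three]

theorem full_dim (n : ℕ) (hn : 0 < n) : affineSpan ℝ (Set.range (pt n)) = ⊤ := by
  rw [eq_top_iff]
  intro x _
  set S : ℝ := ∑ j : Fin n, (x (finProdFinEquiv (0, j)) + x (finProdFinEquiv (1, j))) with hS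
  set t : ℝ := (1 - S) / (3 * n) with ht
  have hn' : (n : ℝ) ≠ 0 := by positivity
  let w : Fin n × Fin 3 → ℝ := fun v =>
    ![x (finProdFinEquiv (0, v.1)) + t, x (finProdFinEquiv (1, v.1)) + t, t] v.2
  have hw : ∑ v, w v = 1 := by
    rw [Fintype.sum_prod_type]
    simp only [w, Fin.sum_univ_three, Matrix.cons_val_zero, Matrix.cons_val_one, Matrix.cons_val_two,
      Matrix.head_cons, Matrix.tail_cons]
    have h1 : ∀ j : Fin n, x (finProdFinEquiv (0, j)) + t + (x (finProdFinEquiv (1, j)) + t) + t =
        (x (finProdFinEquiv (0, j)) + x (finProdFinEquiv (1, j))) + 3 * t := by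
      intro j; ring
    rw [Finset.sum_congr rfl (fun j _ => h1 j), Finset.sum_add_distrib, ← hS]
    simp only [Finset.sum_const, Finset.card_univ, Fintype.card_fin, nsmul_eq_mul]
    rw [ht]
    field_simp
    ring
  have hx : x = Finset.univ.affineCombination ℝ (pt n) w := by
    rw [Finset.affineCombination_eq_linear_combination _ _ _ hw]
    funext c
    obtain ⟨⟨a, j⟩, rfl⟩ := finProdFinEquiv.surjective c
    rw [sum_smul_pt]
    fin_cases a <;> simp [w, tri]
  rw [hx]
  exact affineCombination_mem_affineSpan hw (pt n)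

theorem simplicial (n : ℕ) (hn : 0 < n) (F : Finset (Fin n × Fin 3)) (hF : IsProperFace (pt n) F) :
    AffineIndependent ℝ (fun v : F => pt n v) := by
  classical
  rw [face_iff n hn] at hF
  apply LinearIndependent.affineIndependent
  rw [Fintype.linearIndependent_iff]
  intro g hg v₀
  let w : Fin n × Fin 3 → ℝ := fun v => if h : v ∈ F then g ⟨v, h⟩ else 0
  have hw : ∑ v, w v • pt n v = 0 := by
    rw [← Finset.sum_subset (Finset.subset_univ F)]
    · rw [← Finset.sum_coe_sort F (fun v => w v • pt n v)]
      rw [← hg]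
      apply Finset.sum_congr rfl
      intro v _
      simp [w]
    · intro v _ hv
      simp [w, hv]
  obtain ⟨⟨j, k⟩, hv₀⟩ := v₀
  have e0 := congrFun hw (finProdFinEquiv (0, j))
  have e1 := congrFun hw (finProdFinEquiv (1, j))
  rw [sum_smul_pt] at e0 e1
  simp [tri] at e0 e1
  obtain ⟨k₁, hk₁⟩ := hF j
  have hz : w (j, k₁) = 0 := by simp [w, hk₁]
  have hall : w (j, 0) = 0 ∧ w (j, 1) = 0 ∧ w (j, 2) = 0 := by
    fin_cases k₁ <;> simp only [Fin.zero_eta, Fin.mk_one, Fin.reduceFinMk] at hz <;>
      refine ⟨?_, ?_, ?_⟩ <;> linarith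
  have hgk : g ⟨(j, k), hv₀⟩ = w (j, k) := by simp [w, hv₀]
  rw [hgk]
  fin_cases k
  · exact hall.1
  · exact hall.2.1
  · exact hall.2.2

theorem isSimplicialPolytope (n : ℕ) (hn : 2 ≤ n) : IsSimplicialPolytope (pt n) where
  full_dim := full_dim n (by omega)
  vertices := by
    rintro ⟨j, k⟩
    rw [face_iff n (by omega)]
    intro j'
    by_cases h : j' = j
    · subst h
      fin_cases k
      · exact ⟨1, by simp⟩
      · exact ⟨0, by simp⟩
      · exact ⟨0, by simp⟩
    · exact ⟨0, by simp [h]⟩
  simplicial := fun F hF => simplicial n (by omega) F hF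

/-! ### The stresses of the free sum -/

/-- The transversal face consisting of the first vertex of every triangle. -/
def transversal (n : ℕ) : Finset (Fin n × Fin 3) := Finset.univ.image (fun j : Fin n => (j, (0 : Fin 3)))

theorem stress_coeff (n : ℕ) (hn : 0 < n) (hodd : Odd n) (lam : MvPolynomial (Fin n × Fin 3) ℝ)
    (hlam : IsAffineStress (pt n) n lam) :
    coeff (∑ v ∈ transversal n, Finsupp.single v 1) lam = 0 := by
  classical
  -- the ideal of relations
  let gens : Set (MvPolynomial (Fin n × Fin 3) ℝ) :=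
    {q | (∃ a : Fin n × Fin 3 → ℝ, ∑ v, C (a v) * pderiv v lam = 0 ∧ q = ∑ v, C (a v) * X v) ∨
      (∃ j : Fin n, q = X (j, 0) * X (j, 1) * X (j, 2))}
  have hpair : ∀ q ∈ Ideal.span gens, pairing lam q = 0 := by
    intro q hq
    have : ∀ g : MvPolynomial (Fin n × Fin 3) ℝ, pairing lam (g * q) = 0 := by
      induction hq using Submodule.span_induction with
      | mem q hq =>
        intro g
        rcases hq with ⟨a, ha, rfl⟩ | ⟨j, rfl⟩
        · rw [mul_comm]
          exact pairing_linear_mul lam g a ha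
        · have hm : (X (j, 0) * X (j, 1) * X (j, 2) : MvPolynomial (Fin n × Fin 3) ℝ) =
              monomial (Finsupp.single (j, 0) 1 + Finsupp.single (j, 1) 1 + Finsupp.single (j, 2) 1) 1 := by
            simp [X, monomial_mul]
          rw [mul_comm, hm]
          apply pairing_monomial_mul
          intro b hb
          by_contra hne
          have hs := hlam.supported b (mem_support_iff.mpr hne)
          rw [face_iff n hn] at hs
          obtain ⟨k, hk⟩ := hs j
          apply hk
          rw [Finsupp.mem_support_iff]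
          have := hb (j, k)
          fin_cases k <;> simp [Finsupp.single_apply] at this <;>
            simp only [Fin.zero_eta, Fin.mk_one, Fin.reduceFinMk] <;> omega
      | zero => intro g; simp
      | add q₁ q₂ _ _ h₁ h₂ => intro g; rw [mul_add, map_add, h₁, h₂, add_zero]
      | smul r q _ h => intro g; rw [smul_eq_mul, ← mul_assoc]; exact h _
    simpa using this 1
  -- pass to the quotient
  let I := Ideal.span gens
  let π : MvPolynomial (Fin n × Fin 3) ℝ →ₐ[ℝ] (MvPolynomial (Fin n × Fin 3) ℝ ⧸ I) := Ideal.Quotient.mkₐ ℝ I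
  let D : Fin n → (MvPolynomial (Fin n × Fin 3) ℝ ⧸ I) := fun j => π (X (j, 0))
  have hker : ∀ q ∈ gens, π q = 0 := by
    intro q hq
    exact Ideal.Quotient.eq_zero_iff_mem.mpr (Ideal.subset_span hq)
  have hcoord : ∀ (a : Fin 2) (j : Fin n),
      π (∑ v : Fin n × Fin 3, C (pt n v (finProdFinEquiv (a, j))) * X v) = 0 := fun a j =>
    hker _ (Or.inl ⟨_, hlam.coord_zero _, rfl⟩)
  have hexp : ∀ (a : Fin 2) (j : Fin n),
      (∑ v : Fin n × Fin 3, C (pt n v (finProdFinEquiv (a, j))) * X v : MvPolynomial (Fin n × Fin 3) ℝ) =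
      C (tri 0 a) * X (j, 0) + C (tri 1 a) * X (j, 1) + C (tri 2 a) * X (j, 2) := by
    intro a j
    rw [Fintype.sum_prod_type, Finset.sum_comm]
    have : ∀ (k : Fin 3) (j' : Fin n), (C (pt n (j', k) (finProdFinEquiv (a, j))) * X (j', k) :
        MvPolynomial (Fin n × Fin 3) ℝ) = if j = j' then C (tri k a) * X (j', k) else 0 := by
      intro k j'
      rw [pt_apply]
      split_ifs with h <;> simp_all
    simp only [this, Finset.sum_ite_eq, Finset.mem_univ, if_true]
    rw [Fin.sum_univ_three]
  have hX0 : ∀ j, π (X (j, 0)) = π (X (j, 2)) := by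
    intro j
    have := hcoord 0 j
    rw [hexp] at this
    simp [tri] at this
    exact add_neg_eq_zero.mp this
  have hX1 : ∀ j, π (X (j, 1)) = π (X (j, 2)) := by
    intro j
    have := hcoord 1 j
    rw [hexp] at this
    simp [tri] at this
    exact add_neg_eq_zero.mp this
  have hsum : ∑ j, D j = 0 := by
    have h0 : π (∑ v : Fin n × Fin 3, C (1 : ℝ) * X v) = 0 := by
      apply hker _ (Or.inl ⟨fun _ => 1, ?_, rfl⟩)
      simpa using hlam.sum_zero
    rw [map_sum, Fintype.sum_prod_type] at h0
    have h1 : ∀ j : Fin n, ∑ k : Fin 3, π (C (1 : ℝ) * X (j, k)) = (3 : ℝ) • D j := by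
      intro j
      rw [Fin.sum_univ_three]
      simp only [C_1, one_mul]
      rw [hX1 j, ← hX0 j]
      simp only [D]
      rw [show (3 : ℝ) = 1 + 1 + 1 by norm_num, add_smul, add_smul, one_smul]
    rw [Finset.sum_congr rfl (fun j _ => h1 j), ← Finset.smul_sum] at h0
    exact (smul_eq_zero_iff_right (by norm_num : (3 : ℝ) ≠ 0)).mp h0
  have hcube : ∀ j, D j ^ 3 = 0 := by
    intro j
    have h0 : π (X (j, 0) * X (j, 1) * X (j, 2)) = 0 := hker _ (Or.inr ⟨j, rfl⟩)
    rw [map_mul, map_mul, hX1 j, ← hX0 j] at h0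
    simp only [D]
    rw [← h0]
    ring
  have hnewton := newton_odd n D hsum hcube n hodd
  have hprod : aeval D (esymm (Fin n) ℝ n) = ∏ j, D j := by
    rw [esymm, map_sum]
    have : Finset.powersetCard n (Finset.univ : Finset (Fin n)) = {Finset.univ} := by
      have h := Finset.powersetCard_self (Finset.univ : Finset (Fin n))
      rwa [Finset.card_univ, Fintype.card_fin] at h
    rw [this, Finset.sum_singleton, map_prod]
    simp
  rw [hprod] at hnewton
  have hmem : (∏ j : Fin n, X (j, (0 : Fin 3)) : MvPolynomial (Fin n × Fin 3) ℝ) ∈ I := by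
    rw [← Ideal.Quotient.eq_zero_iff_mem]
    have : π (∏ j : Fin n, X (j, (0 : Fin 3))) = 0 := by
      rw [map_prod]
      exact hnewton
    exact this
  have hfin := hpair _ hmem
  have hmon : (∏ j : Fin n, X (j, (0 : Fin 3)) : MvPolynomial (Fin n × Fin 3) ℝ) =
      monomial (∑ v ∈ transversal n, Finsupp.single v 1) 1 := by
    have h1 : ∑ v ∈ transversal n, Finsupp.single v 1 = ∑ j : Fin n, Finsupp.single (j, (0 : Fin 3)) 1 := by
      rw [transversal, Finset.sum_image]
      intro x _ y _ hxy
      exact congrArg Prod.fst hxy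
    rw [h1]
    simp only [X]
    rw [monomial_sum_one]
  rw [hmon, pairing_monomial, one_mul] at hfin
  rcases mul_eq_zero.mp hfin with h | h
  · exfalso
    have : (∏ v, (((∑ v ∈ transversal n, Finsupp.single v 1 : Fin n × Fin 3 →₀ ℕ) v).factorial : ℝ)) ≠ 0 := by
      rw [Finset.prod_ne_zero_iff]
      intro v _
      exact_mod_cast (Nat.factorial_pos _).ne'
    exact this h
  · exact h

/-- For every odd `i ≥ 3` there is a simplicial `2i`-polytope without missing faces of dimension
`≥ d - i + 1`, where `d = 2i`, and with an `(i-1)`-face `F` such that the coefficient of `x_F` is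
zero in every affine `i`-stress. -/
theorem result : ∀ i : ℕ, Odd i → 3 ≤ i →
    ∃ (ι : Type) (_ : Fintype ι) (p : ι → Fin (2 * i) → ℝ) (F : Finset ι),
      IsSimplicialPolytope p ∧
      (∀ G, IsMissingFace p G → ¬ (2 * i - i + 1 ≤ G.card - 1)) ∧
      IsProperFace p F ∧ F.card = i ∧
      ∀ lam : MvPolynomial ι ℝ, IsAffineStress p i lam →
        coeff (∑ v ∈ F, Finsupp.single v 1) lam = 0 := by
  intro i hodd hi
  refine ⟨Fin i × Fin 3, inferInstance, pt i, transversal i, isSimplicialPolytope i (by omega),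
    ?_, ?_, ?_, ?_⟩
  · intro G hG
    obtain ⟨h1, h2⟩ := hG
    rw [face_iff i (by omega)] at h1
    push Not at h1
    obtain ⟨j, hj⟩ := h1
    let T : Finset (Fin i × Fin 3) := Finset.univ.image (fun k : Fin 3 => (j, k))
    have hT : T ⊆ G := by
      intro v hv
      obtain ⟨k, -, rfl⟩ := Finset.mem_image.mp hv
      exact hj k
    have hTcard : T.card ≤ 3 := by
      have := Finset.card_image_le (s := (Finset.univ : Finset (Fin 3))) (f := fun k : Fin 3 => (j, k))
      simpa using this
    have hTG : T = G := by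
      by_contra hne
      have := h2 T (Finset.ssubset_iff_subset_ne.mpr ⟨hT, hne⟩)
      rw [face_iff i (by omega)] at this
      obtain ⟨k, hk⟩ := this j
      exact hk (Finset.mem_image.mpr ⟨k, Finset.mem_univ _, rfl⟩)
    rw [← hTG]
    omega
  · rw [face_iff i (by omega)]
    intro j
    exact ⟨1, by simp [transversal]⟩
  · rw [transversal, Finset.card_image_of_injective]
    · simp
    · intro x y hxy
      exact congrArg Prod.fst hxy
  · intro lam hlam
    exact stress_coeff i (by omega) hodd lam hlam

end Pool.Agent.Results.MP_1d95a5_co.OddMiddle
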